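import Pool.Agent.X170.Jets.Fun

/-!
# A non-transversality set that is not a countable union of `C^{r-1}` submanifolds

`X = Y = ℝ`, `p = 1`, `r = 2`.  We use the global coordinates `(x, y, u)` on `J¹(ℝ, ℝ) = ℝ³` and
`(x, y, u, v)` on `J²(ℝ, ℝ) = ℝ⁴`.
-/

set_option autoImplicit false
set_option linter.unusedVariables false

open Set Filter Topology

namespace Pool.Agent.Results.MP_5de00f_gt.CantorJets

open Pool.Agent.X170.Jets

/-- `M` is an embedded submanifold of class `C^k` of the real vector space `E`, of any dimension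
(which may even vary from point to point): around each point of `M` there is a local `C^k`
diffeomorphism `e` of `E` to `ℝ^m × ℝ^q` taking `M` to the slice `ℝ^m × 0`. -/
def IsSubmanifold {E : Type} [NormedAddCommGroup E] [NormedSpace ℝ E] (k : WithTop ℕ∞)
    (M : Set E) : Prop :=
  ∀ a ∈ M, ∃ (m q : ℕ) (e : OpenPartialHomeomorph E ((Fin m → ℝ) × (Fin q → ℝ))),
    a ∈ e.source ∧ ContDiffOn ℝ k e e.source ∧ ContDiffOn ℝ k e.symm e.target ∧
      ∀ x ∈ e.source, x ∈ M ↔ (e x).2 = 0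

/-- the 1-jet of `f` at `x` -/
noncomputable def jet1 (f : ℝ → ℝ) (x : ℝ) : ℝ × ℝ × ℝ := (x, f x, deriv f x)

/-- the 2-jet of `f` at `x` -/
noncomputable def jet2 (f : ℝ → ℝ) (x : ℝ) : ℝ × ℝ × ℝ × ℝ := (x, f x, deriv f x, deriv (deriv f) x)

/-- the velocity vectors at `b` of the curves in `A` through `b` -/
def velocities {E : Type} [NormedAddCommGroup E] [NormedSpace ℝ E] (A : Set E) (b : E) : Set E :=
  {w | ∃ γ : ℝ → E, γ 0 = b ∧ HasDerivAt γ w 0 ∧ ∀ᶠ t in 𝓝 0, γ t ∈ A}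

/-- the set `Ã` of the 2-jets of functions whose 1-jet extension is at the point `x` not
transverse to `A` -/
def tilde (A : Set (ℝ × ℝ × ℝ)) : Set (ℝ × ℝ × ℝ × ℝ) :=
  {z | ∃ (f : ℝ → ℝ) (x : ℝ), ContDiff ℝ (⊤ : ℕ∞) f ∧ z = jet2 f x ∧ jet1 f x ∈ A ∧
    Submodule.span ℝ {deriv (jet1 f) x} ⊔ Submodule.span ℝ (velocities A (jet1 f x)) ≠ ⊤}

/-! ### curves in `C¹` submanifolds -/

theorem curve_in {E : Type} [NormedAddCommGroup E] [NormedSpace ℝ E] {M : Set E}
    (hM : IsSubmanifold 1 M) {a w : E} (ha : a ∈ M) {t : ℕ → ℝ} (ht : Tendsto t atTop (𝓝 0))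
    (ht0 : ∀ n, t n ≠ 0) (hmem : ∀ n, a + t n • w ∈ M) :
    ∃ γ : ℝ → E, γ 0 = a ∧ HasDerivAt γ w 0 ∧ ∀ᶠ s in 𝓝 0, γ s ∈ M ∧ ContinuousAt γ s := by
  obtain ⟨m, q, e, hae, he, hes, hiff⟩ := hM a ha
  have h1 : HasFDerivAt e (fderiv ℝ e a) a :=
    ((he.differentiableOn (by simp)).differentiableAt (e.open_source.mem_nhds hae)).hasFDerivAt
  have hta : e a ∈ e.target := e.map_source hae
  have h2 : HasFDerivAt e.symm (fderiv ℝ e.symm (e a)) (e a) :=
    ((hes.differentiableOn (by simp)).differentiableAt (e.open_target.mem_nhds hta)).hasFDerivAt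
  set L := fderiv ℝ e a with hL
  set L' := fderiv ℝ e.symm (e a) with hL'
  have h3 : L' (L w) = w := by
    have h4 : HasFDerivAt (fun x => e.symm (e x)) (L'.comp L) a := h2.comp a h1
    have h5 : HasFDerivAt (fun x => e.symm (e x)) (ContinuousLinearMap.id ℝ E) a := by
      refine (hasFDerivAt_id a).congr_of_eventuallyEq ?_
      filter_upwards [e.open_source.mem_nhds hae] with x hx using e.left_inv hx
    have h6 := h4.unique h5
    exact congrArg (fun T : E →L[ℝ] E => T w) h6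
  have h4 : (L w).2 = 0 := by
    have hline : HasDerivAt (fun s : ℝ => a + s • w) w 0 := by
      simpa using ((hasDerivAt_id (0 : ℝ)).smul_const w).const_add a
    have h5 : HasDerivAt (fun s : ℝ => e (a + s • w)) (L w) 0 :=
      HasFDerivAt.comp_hasDerivAt (0 : ℝ) (by simpa using h1) hline
    have h6 : HasDerivAt (fun s : ℝ => (e (a + s • w)).2) (L w).2 0 := h5.snd
    have h7 := h6.tendsto_slope_zero
    have h8 : Tendsto t atTop (𝓝[≠] 0) :=
      tendsto_nhdsWithin_iff.2 ⟨ht, Eventually.of_forall fun n => ht0 n⟩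
    have h9 := h7.comp h8
    refine tendsto_nhds_unique h9 ?_
    refine tendsto_const_nhds.congr' ?_
    have h10 : ∀ᶠ n in atTop, a + t n • w ∈ e.source := by
      have h11 : Tendsto (fun n => a + t n • w) atTop (𝓝 a) := by
        simpa using (ht.smul_const w).const_add a
      exact h11.eventually (e.open_source.mem_nhds hae)
    filter_upwards [h10] with n hn
    have h12 := (hiff _ hn).1 (hmem n)
    have h13 := (hiff _ hae).1 ha
    simp [h12, h13]
  refine ⟨fun s => e.symm (e a + s • L w), by simp [e.left_inv hae], ?_, ?_⟩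
  · have hline : HasDerivAt (fun s : ℝ => e a + s • L w) (L w) 0 := by
      simpa using ((hasDerivAt_id (0 : ℝ)).smul_const (L w)).const_add (e a)
    have h5 : HasDerivAt (fun s : ℝ => e.symm (e a + s • L w)) (L' (L w)) 0 :=
      HasFDerivAt.comp_hasDerivAt (0 : ℝ) (by simpa using h2) hline
    rwa [h3] at h5
  · have hc : Continuous fun s : ℝ => e a + s • L w := by fun_prop
    have h5 : ∀ᶠ s in 𝓝 (0 : ℝ), e a + s • L w ∈ e.target :=
      hc.continuousAt.eventually (by simpa using e.open_target.mem_nhds hta)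
    filter_upwards [h5] with s hs
    refine ⟨?_, ?_⟩
    · rw [hiff _ (e.map_target hs), e.right_inv hs]
      have h13 := (hiff _ hae).1 ha
      simp [h13, h4]
    · exact (e.symm.continuousAt (by simpa using hs)).comp hc.continuousAt

/-! ### the surface -/

/-- the primitive of `g` -/
noncomputable def G (u : ℝ) : ℝ := ∫ t in (0 : ℝ)..u, g t

theorem hasDerivAt_G (u : ℝ) : HasDerivAt G (g u) u :=
  intervalIntegral.integral_hasDerivAt_right (g_C1.1.continuous.intervalIntegrable _ _)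
    (g_C1.1.continuous.stronglyMeasurableAtFilter _ _) g_C1.1.continuous.continuousAt

theorem G_C2 : ContDiff ℝ 2 G := by
  have h : deriv G = g := funext fun u => (hasDerivAt_G u).deriv
  rw [show (2 : WithTop ℕ∞) = 1 + 1 from by norm_num, contDiff_succ_iff_deriv]
  refine ⟨fun u => (hasDerivAt_G u).differentiableAt, by simp, ?_⟩
  rw [h]
  exact g_C1.1

/-- the function whose graph is the surface `A` -/
noncomputable def F (x u : ℝ) : ℝ := x * u + (G (x + u) - G u)

/-- the surface -/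
def A : Set (ℝ × ℝ × ℝ) := {b | b.2.1 = F b.1 b.2.2}

theorem F_C2 : ContDiff ℝ 2 fun p : ℝ × ℝ => F p.1 p.2 := by
  unfold F
  have h1 : ContDiff ℝ 2 fun p : ℝ × ℝ => G (p.1 + p.2) := G_C2.comp (by fun_prop)
  have h2 : ContDiff ℝ 2 fun p : ℝ × ℝ => G p.2 := G_C2.comp (by fun_prop)
  exact (by fun_prop : ContDiff ℝ 2 fun p : ℝ × ℝ => p.1 * p.2).add (h1.sub h2)

theorem A_sub : IsSubmanifold 2 A := by
  intro a _
  have hF := F_C2
  set f : ℝ × ℝ × ℝ → (Fin 2 → ℝ) × (Fin 1 → ℝ) :=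
    fun b => (![b.1, b.2.2], ![b.2.1 - F b.1 b.2.2]) with hf
  set f' : (Fin 2 → ℝ) × (Fin 1 → ℝ) → ℝ × ℝ × ℝ :=
    fun w => (w.1 0, w.2 0 + F (w.1 0) (w.1 1), w.1 1) with hf'
  have c1 : ContDiff ℝ 2 f := by
    refine ContDiff.prodMk (contDiff_pi.2 fun i => ?_) (contDiff_pi.2 fun i => ?_)
    · fin_cases i
      · exact contDiff_fst
      · exact contDiff_snd.snd
    · fin_cases i
      exact contDiff_snd.fst.sub (hF.comp (f := fun b : ℝ × ℝ × ℝ => (b.1, b.2.2)) (by fun_prop))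
  have c2 : ContDiff ℝ 2 f' := by
    refine ContDiff.prodMk ?_ (ContDiff.prodMk (ContDiff.add ?_ (hF.comp
      (f := fun w : (Fin 2 → ℝ) × (Fin 1 → ℝ) => (w.1 0, w.1 1)) ?_)) ?_)
    all_goals fun_prop
  let e : (ℝ × ℝ × ℝ) ≃ₜ (Fin 2 → ℝ) × (Fin 1 → ℝ) :=
    { toFun := f
      invFun := f'
      left_inv := fun b => by simp [hf, hf']
      right_inv := fun w => by
        refine Prod.ext (funext fun i => ?_) (funext fun i => ?_)
        · fin_cases i <;> simp [hf, hf']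
        · fin_cases i
          simp [hf, hf']
      continuous_toFun := c1.continuous
      continuous_invFun := c2.continuous }
  refine ⟨2, 1, e.toOpenPartialHomeomorph, mem_univ _, c1.contDiffOn, c2.contDiffOn, ?_⟩
  intro b _
  show b.2.1 = F b.1 b.2.2 ↔ (![b.2.1 - F b.1 b.2.2] : Fin 1 → ℝ) = 0
  constructor
  · intro h
    funext i
    fin_cases i
    simp [h]
  · intro h
    have := congrFun h 0
    simpa [sub_eq_zero] using this

theorem hasDerivAt_F {X U : ℝ → ℝ} {X' U' t : ℝ} (hX : HasDerivAt X X' t) (hU : HasDerivAt U U' t) :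
    HasDerivAt (fun t => F (X t) (U t))
      (X' * (U t + g (X t + U t)) + U' * (X t + g (X t + U t) - g (U t))) t := by
  unfold F
  have h1 : HasDerivAt (fun t => G (X t + U t)) (g (X t + U t) * (X' + U')) t :=
    HasDerivAt.comp (h := fun t => X t + U t) t (hasDerivAt_G (X t + U t)) (hX.fun_add hU)
  have h2 : HasDerivAt (fun t => G (U t)) (g (U t) * U') t := (hasDerivAt_G (U t)).comp t hU
  refine ((hX.mul hU).add (h1.sub h2)).congr_deriv ?_
  ring

theorem jet1_deriv {f : ℝ → ℝ} (hf : ContDiff ℝ (⊤ : ℕ∞) f) (x : ℝ) :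
    deriv (jet1 f) x = (1, deriv f x, deriv (deriv f) x) := by
  have h1 : Differentiable ℝ f := hf.differentiable (by simp)
  have h2 : Differentiable ℝ (deriv f) :=
    ((contDiff_infty_iff_deriv.1 hf).2).differentiable (by simp)
  exact ((hasDerivAt_id x).prodMk ((h1 x).hasDerivAt.prodMk (h2 x).hasDerivAt)).deriv

/-- The velocities of `A`. -/
theorem velocities_A {x u : ℝ} {w : ℝ × ℝ × ℝ} (hw : w ∈ velocities A (x, F x u, u)) :
    w.2.1 = w.1 * (u + g (x + u)) + w.2.2 * (x + g (x + u) - g u) := by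
  obtain ⟨γ, h0, hγ, hA⟩ := hw
  have h1 : HasDerivAt (fun t => (γ t).1) w.1 0 := hγ.fst
  have h2 : HasDerivAt (fun t => (γ t).2.1) w.2.1 0 := hγ.snd.fst
  have h3 : HasDerivAt (fun t => (γ t).2.2) w.2.2 0 := hγ.snd.snd
  have h4 := hasDerivAt_F h1 h3
  have h5 : HasDerivAt (fun t => F (γ t).1 (γ t).2.2) w.2.1 0 :=
    h2.congr_of_eventuallyEq (hA.mono fun t ht => ht.symm)
  have h6 := h5.unique h4
  simp only [h0] at h6
  exact h6

theorem mem_velocities_A (x u α β : ℝ) :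
    (α, α * (u + g (x + u)) + β * (x + g (x + u) - g u), β) ∈ velocities A (x, F x u, u) := by
  refine ⟨fun t => (x + t * α, F (x + t * α) (u + t * β), u + t * β), by simp, ?_,
    Eventually.of_forall fun t => rfl⟩
  have h1 : ∀ y γ : ℝ, HasDerivAt (fun t : ℝ => y + t * γ) γ 0 := fun y γ => by
    simpa using ((hasDerivAt_id (0 : ℝ)).mul_const γ).const_add y
  have h2 := hasDerivAt_F (h1 x α) (h1 u β)
  simp only [zero_mul, add_zero] at h2
  exact (h1 x α).prodMk (h2.prodMk (h1 u β))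

/-- The equation of `Ã`. -/
theorem tilde_eq {z : ℝ × ℝ × ℝ × ℝ} (hz : z ∈ tilde A) :
    g (z.1 + z.2.2.1) + z.2.2.2 * (z.1 + g (z.1 + z.2.2.1) - g z.2.2.1) = 0 := by
  obtain ⟨f, x, hf, rfl, hA, htop⟩ := hz
  by_contra hne
  apply htop
  have hb : jet1 f x = (x, F x (deriv f x), deriv f x) := by
    have : f x = F x (deriv f x) := hA
    unfold jet1
    rw [← this]
  rw [hb, jet1_deriv hf, eq_top_iff]
  rintro ⟨α, β, γ⟩ -
  simp only [jet2] at hne
  set u := deriv f x with hu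
  set v := deriv (deriv f) x with hv
  set D : ℝ := g (x + u) + v * (x + g (x + u) - g u) with hD
  set s : ℝ := (α * (u + g (x + u)) + γ * (x + g (x + u) - g u) - β) / D with hs
  have hsD : s * D = α * (u + g (x + u)) + γ * (x + g (x + u) - g u) - β := div_mul_cancel₀ _ hne
  have hm := mem_velocities_A x u (α - s) (γ - s * v)
  have hsum : ((α, β, γ) : ℝ × ℝ × ℝ) = s • ((1, u, v) : ℝ × ℝ × ℝ) +
      (α - s, (α - s) * (u + g (x + u)) + (γ - s * v) * (x + g (x + u) - g u), γ - s * v) := by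
    refine Prod.ext (by simp) (Prod.ext ?_ (by simp))
    simp only [Prod.snd_add, Prod.fst_add, Prod.smul_snd, Prod.smul_fst, smul_eq_mul]
    linear_combination hsD + s * hD
  rw [hsum]
  exact Submodule.add_mem_sup (Submodule.smul_mem _ _ (Submodule.subset_span rfl))
    (Submodule.subset_span hm)

/-- The points over the Cantor set. -/
theorem mem_tilde {c : ℝ} (hc : g c = 0) : ((0, 0, c, 0) : ℝ × ℝ × ℝ × ℝ) ∈ tilde A := by
  have hF0 : F 0 c = 0 := by simp [F]
  have hd : deriv (fun x : ℝ => c * x) = fun _ => c := by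
    funext x
    simp
  have hf : ContDiff ℝ (⊤ : ℕ∞) (fun x : ℝ => c * x) := by fun_prop
  have hj : jet1 (fun x : ℝ => c * x) 0 = (0, F 0 c, c) := by
    unfold jet1
    rw [hd, hF0]
    simp
  refine ⟨fun x => c * x, 0, hf, ?_, ?_, ?_⟩
  · unfold jet2
    rw [hd]
    simp
  · rw [hj]
    exact rfl
  · intro htop
    rw [hj, jet1_deriv hf, hd] at htop
    let ℓ : (ℝ × ℝ × ℝ) →ₗ[ℝ] ℝ :=
      LinearMap.fst ℝ ℝ ℝ ∘ₗ LinearMap.snd ℝ ℝ (ℝ × ℝ) - c • LinearMap.fst ℝ ℝ (ℝ × ℝ)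
    have hle : (⊤ : Submodule ℝ (ℝ × ℝ × ℝ)) ≤ LinearMap.ker ℓ := by
      rw [← htop]
      refine sup_le (Submodule.span_le.2 ?_) (Submodule.span_le.2 ?_)
      · rintro _ rfl
        simp [ℓ]
      · intro w hw
        have h1 := velocities_A hw
        simp only [zero_add, hc, add_zero, sub_self, mul_zero] at h1
        simp [ℓ, h1]
        ring
    have h2 : ((0, 1, 0) : ℝ × ℝ × ℝ) ∈ LinearMap.ker ℓ := hle trivial
    simp [ℓ] at h2

/-- No `C¹` curve-like object passes through the bad points. -/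
theorem no_curve {c : ℝ} (γ : ℝ → ℝ × ℝ × ℝ × ℝ) (h0 : γ 0 = (0, 0, c, 0))
    (hγ : HasDerivAt γ (0, 0, 1, 0) 0) (hT : ∀ᶠ s in 𝓝 0, γ s ∈ tilde A ∧ ContinuousAt γ s) :
    False := by
  obtain ⟨-, K, hK0, hK⟩ := g_C1
  set κ : ℝ := ψ (1 / 2) with hκ
  have hκ0 : 0 < κ := by
    have := ψ_half 0
    rwa [ψ_half_eq] at this
  have hX : HasDerivAt (fun t => (γ t).1) 0 0 := hγ.fst
  have hU : HasDerivAt (fun t => (γ t).2.2.1) 1 0 := hγ.snd.snd.fst
  have hV : HasDerivAt (fun t => (γ t).2.2.2) 0 0 := hγ.snd.snd.snd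
  have hS : HasDerivAt (fun t => (γ t).1 + (γ t).2.2.1) 1 0 := by
    simpa using hX.fun_add hU
  obtain ⟨ε, hε, hεκ⟩ : ∃ ε : ℝ, 0 < ε ∧ 4 * ((1 + K) * ε ^ 2) < κ := by
    refine ⟨min 1 (κ / (8 * (1 + K))), lt_min one_pos (by positivity), ?_⟩
    set ε := min 1 (κ / (8 * (1 + K))) with hε
    have h1 : 0 < ε := lt_min one_pos (by positivity)
    have h2 : ε ≤ 1 := min_le_left _ _
    have h3 : ε ≤ κ / (8 * (1 + K)) := min_le_right _ _
    rw [le_div_iff₀ (by positivity)] at h3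
    nlinarith [mul_nonneg h1.le (by positivity : (0 : ℝ) ≤ 1 + K)]
  have eX : ∀ᶠ t in 𝓝 (0 : ℝ), |(γ t).1| ≤ ε * |t| := by
    have := (hasDerivAt_iff_isLittleO.1 hX).def hε
    filter_upwards [this] with t ht
    simpa [h0] using ht
  have eV : ∀ᶠ t in 𝓝 (0 : ℝ), |(γ t).2.2.2| ≤ ε * |t| := by
    have := (hasDerivAt_iff_isLittleO.1 hV).def hε
    filter_upwards [this] with t ht
    simpa [h0] using ht
  have eS : ∀ᶠ t in 𝓝 (0 : ℝ), |(γ t).1 + (γ t).2.2.1 - c - t| ≤ 1 / 2 * |t| := by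
    have := (hasDerivAt_iff_isLittleO.1 hS).def (by norm_num : (0 : ℝ) < 1 / 2)
    filter_upwards [this] with t ht
    simpa [h0] using ht
  obtain ⟨δ, hδ, hball⟩ := Metric.eventually_nhds_iff.1 (eX.and (eV.and (eS.and hT)))
  obtain ⟨n, hn⟩ := exists_pow_lt_of_lt_one (by linarith : 0 < δ / 2) (by norm_num : (1 / 4 : ℝ) < 1)
  obtain ⟨τ, hτ0, hτn, hτ⟩ := g_growth c n
  have hlt : 2 * τ < δ := by linarith
  have hin : ∀ t ∈ Icc 0 (2 * τ), dist t 0 < δ := by
    intro t ht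
    rw [dist_zero_right, Real.norm_of_nonneg ht.1]
    exact ht.2.trans_lt hlt
  have hcont : ContinuousOn (fun t => (γ t).1 + (γ t).2.2.1) (Icc 0 (2 * τ)) := by
    intro t ht
    have h1 : ContinuousAt γ t := (hball (hin t ht)).2.2.2.2
    exact (h1.fst.add h1.snd.snd.fst).continuousWithinAt
  have hival := intermediate_value_Icc (by linarith : (0 : ℝ) ≤ 2 * τ) hcont
  have hmem : c + τ ∈ Icc ((γ 0).1 + (γ 0).2.2.1) ((γ (2 * τ)).1 + (γ (2 * τ)).2.2.1) := by
    rw [h0]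
    refine ⟨by simp; linarith, ?_⟩
    have h1 := (hball (hin (2 * τ) (right_mem_Icc.2 (by linarith)))).2.2.1
    rw [abs_of_nonneg (by linarith : (0 : ℝ) ≤ 2 * τ)] at h1
    have h2 := (abs_le.1 h1).1
    linarith
  obtain ⟨t, ht, hst⟩ := hival hmem
  simp only at hst
  obtain ⟨bX, bV, -, hTt, -⟩ := hball (hin t ht)
  have heq := tilde_eq hTt
  rw [hst] at heq
  have hlip := hK (c + τ) (γ t).2.2.1
  have hsub : c + τ - (γ t).2.2.1 = (γ t).1 := by linarith
  rw [hsub] at hlip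
  have hineq : g (c + τ) ≤ |(γ t).2.2.2| * ((1 + K) * |(γ t).1|) := by
    have h1 : g (c + τ) = -((γ t).2.2.2 * ((γ t).1 + g (c + τ) - g (γ t).2.2.1)) := by linarith
    have h2 : |g (c + τ)| ≤ |(γ t).2.2.2| * |(γ t).1 + g (c + τ) - g (γ t).2.2.1| := by
      conv_lhs => rw [h1]
      rw [abs_neg, abs_mul]
    have h3 : |(γ t).1 + g (c + τ) - g (γ t).2.2.1| ≤ (1 + K) * |(γ t).1| := by
      rw [add_sub_assoc]
      refine (abs_add_le _ _).trans ?_
      linarith
    exact (le_abs_self _).trans (h2.trans (mul_le_mul_of_nonneg_left h3 (abs_nonneg _)))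
  have h4 : |(γ t).2.2.2| * ((1 + K) * |(γ t).1|) ≤ ε * |t| * ((1 + K) * (ε * |t|)) := by
    have : 0 ≤ 1 + K := by linarith
    exact mul_le_mul bV (mul_le_mul_of_nonneg_left bX this) (by positivity) (by positivity)
  have h5 : |t| ≤ 2 * τ := by
    rw [abs_of_nonneg ht.1]
    exact ht.2
  have h6 : |t| ^ 2 ≤ 4 * τ ^ 2 := by
    have := pow_le_pow_left₀ (abs_nonneg t) h5 2
    linarith [show (2 * τ) ^ 2 = 4 * τ ^ 2 by ring]
  have h7 : κ * τ ^ 2 ≤ (1 + K) * ε ^ 2 * |t| ^ 2 := by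
    calc κ * τ ^ 2 ≤ g (c + τ) := hτ
      _ ≤ _ := hineq.trans h4
      _ = (1 + K) * ε ^ 2 * |t| ^ 2 := by ring
  have h8 : (1 + K) * ε ^ 2 * |t| ^ 2 ≤ (1 + K) * ε ^ 2 * (4 * τ ^ 2) :=
    mul_le_mul_of_nonneg_left h6 (by positivity)
  have h9 : 4 * ((1 + K) * ε ^ 2) * τ ^ 2 < κ * τ ^ 2 := by
    exact mul_lt_mul_of_pos_right hεκ (by positivity)
  linarith

/-- An uncountable set of reals has a point which is a limit of other points of the set. -/
theorem exists_acc {T : Set ℝ} (hT : ¬ T.Countable) :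
    ∃ c ∈ T, ∀ ε > 0, ∃ c' ∈ T, c' ≠ c ∧ |c' - c| < ε := by
  by_contra hcon
  push Not at hcon
  apply hT
  have hd : DiscreteTopology T := by
    rw [discreteTopology_iff_isOpen_singleton]
    rintro ⟨c, hc⟩
    obtain ⟨ε, hε, h⟩ := hcon c hc
    have : ({⟨c, hc⟩} : Set T) = Subtype.val ⁻¹' Metric.ball c ε := by
      ext ⟨x, hx⟩
      simp only [mem_singleton_iff, Subtype.mk.injEq, mem_preimage, Metric.mem_ball]
      constructor
      · rintro rfl
        simpa using hε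
      · intro h2
        by_contra h3
        have := h x hx h3
        rw [Real.dist_eq] at h2
        linarith
    rw [this]
    exact Metric.isOpen_ball.preimage continuous_subtype_val
  exact Set.countable_coe_iff.1 (TopologicalSpace.separableSpace_iff_countable.1 inferInstance)

theorem result : ∃ (A : Set (ℝ × ℝ × ℝ)) (H : ℝ × ℝ → ℝ), ContDiff ℝ 2 H ∧
    A = {b | b.2.1 = H (b.1, b.2.2)} ∧ IsSubmanifold 2 A ∧
    ¬ ∃ M : ℕ → Set (ℝ × ℝ × ℝ × ℝ), (∀ i, IsSubmanifold 1 (M i)) ∧ tilde A = ⋃ i, M i := by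
  refine ⟨A, fun p => F p.1 p.2, F_C2, rfl, A_sub, ?_⟩
  rintro ⟨M, hM, hU⟩
  -- one of the submanifolds contains uncountably many of the bad points
  have h1 : ∃ i, ¬ {c : ℝ | ((0, 0, c, 0) : ℝ × ℝ × ℝ × ℝ) ∈ M i}.Countable := by
    by_contra hcon
    push Not at hcon
    apply g_zeros
    refine (countable_iUnion hcon).mono fun c hc => ?_
    have h2 := mem_tilde hc
    rw [hU] at h2
    obtain ⟨i, hi⟩ := mem_iUnion.1 h2
    exact mem_iUnion.2 ⟨i, hi⟩
  obtain ⟨i, hi⟩ := h1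
  obtain ⟨c, hc, hacc⟩ := exists_acc hi
  choose c' hc' hne hlt using fun n : ℕ => hacc (1 / ((n : ℝ) + 1)) (by positivity)
  obtain ⟨γ, g0, g1, g2⟩ := curve_in (hM i) (a := (0, 0, c, 0)) (w := (0, 0, 1, 0)) hc
    (t := fun n => c' n - c) (by
      rw [tendsto_zero_iff_norm_tendsto_zero]
      exact squeeze_zero (fun n => norm_nonneg _) (fun n => (hlt n).le)
        tendsto_one_div_add_atTop_nhds_zero_nat)
    (fun n => sub_ne_zero.2 (hne n)) (fun n => by simpa using hc' n)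
  refine no_curve γ g0 g1 (g2.mono fun s hs => ⟨?_, hs.2⟩)
  rw [hU]
  exact mem_iUnion.2 ⟨i, hs.1⟩

end Pool.Agent.Results.MP_5de00f_gt.CantorJets
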